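import Mathlib

/-!
Triangle-free graphs on `n` vertices have chromatic number `o(√n)`
(averaging over all independent sets, following Shearer and Alon).
-/

set_option autoImplicit false

namespace Pool.Agent.H50.TriFree

open Finset

section Avg

variable {V : Type*} [Fintype V] [DecidableEq V]

/-- independent finset -/
def Ind (G : SimpleGraph V) (W : Finset V) : Prop := ∀ u ∈ W, ∀ v ∈ W, ¬ G.Adj u v

open Classical in
/-- the neighbours as a finset -/
noncomputable def nb (G : SimpleGraph V) (v : V) : Finset V := univ.filter (fun u => G.Adj v u)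

lemma mem_nb (G : SimpleGraph V) (v u : V) : u ∈ nb G v ↔ G.Adj v u := by
  simp [nb]

open Classical in
/-- independent sets -/
noncomputable def IS (G : SimpleGraph V) : Finset (Finset V) := univ.filter (fun W => Ind G W)

lemma mem_IS (G : SimpleGraph V) (W : Finset V) : W ∈ IS G ↔ Ind G W := by
  simp [IS]

open Classical in
/-- the weight -/
noncomputable def X (G : SimpleGraph V) (D : ℝ) (v : V) (W : Finset V) : ℝ :=
  D * (if v ∈ W then 1 else 0) + ((W ∩ nb G v).card : ℝ)

lemma sum_powerset_card (A : Finset V) :
    ∑ B ∈ A.powerset, (B.card : ℝ) = A.card * 2 ^ A.card / 2 := by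
  have h : ∑ B ∈ A.powerset, (B.card : ℝ) = ∑ B ∈ A.powerset, ((A \ B).card : ℝ) := by
    apply Finset.sum_nbij' (fun B => A \ B) (fun B => A \ B)
    · intro B hB
      simp only [mem_powerset] at hB ⊢
      exact sdiff_subset
    · intro B hB
      simp only [mem_powerset] at hB ⊢
      exact sdiff_subset
    · intro B hB
      simp only [mem_powerset] at hB
      exact Finset.sdiff_sdiff_eq_self hB
    · intro B hB
      simp only [mem_powerset] at hB
      exact Finset.sdiff_sdiff_eq_self hB
    · intro B hB
      simp only [mem_powerset] at hB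
      rw [Finset.sdiff_sdiff_eq_self hB]
  have h2 : ∑ B ∈ A.powerset, (B.card : ℝ) + ∑ B ∈ A.powerset, ((A \ B).card : ℝ)
      = A.card * 2 ^ A.card := by
    rw [← Finset.sum_add_distrib]
    have : ∀ B ∈ A.powerset, (B.card : ℝ) + ((A \ B).card : ℝ) = A.card := by
      intro B hB
      simp only [mem_powerset] at hB
      rw [card_sdiff_of_subset hB]
      have := card_le_card hB
      push_cast [Nat.cast_sub this]
      ring
    rw [Finset.sum_congr rfl this, Finset.sum_const, card_powerset]
    simp
    ring
  linarith

open Classical in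
lemma fiber (G : SimpleGraph V) (hG : G.CliqueFree 3) (v : V) (D L : ℝ)
    (hL : ∀ x : ℕ, L * (2 ^ x + 1) ≤ D + x * 2 ^ x / 2) (S : Finset V) :
    L * (((IS G).filter (fun W => W \ (insert v (nb G v)) = S)).card : ℝ) ≤
      ∑ W ∈ (IS G).filter (fun W => W \ (insert v (nb G v)) = S), X G D v W := by
  by_cases hne : ((IS G).filter (fun W => W \ (insert v (nb G v)) = S)).Nonempty
  swap
  · rw [Finset.not_nonempty_iff_eq_empty] at hne
    rw [hne]; simp
  obtain ⟨W0, hW0⟩ := hne
  rw [mem_filter, mem_IS] at hW0
  obtain ⟨hW0i, hW0s⟩ := hW0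
  have hSi : Ind G S := by
    intro a ha b hb
    rw [← hW0s] at ha hb
    exact hW0i a (mem_sdiff.1 ha).1 b (mem_sdiff.1 hb).1
  have hSd : ∀ a ∈ S, a ≠ v ∧ ¬ G.Adj v a := by
    intro a ha
    rw [← hW0s] at ha
    have := (mem_sdiff.1 ha).2
    simp only [mem_insert, mem_nb, not_or] at this
    exact this
  have hnbi : ∀ a b : V, G.Adj v a → G.Adj v b → ¬ G.Adj a b := by
    intro a b ha hb hab
    exact hG {v, a, b} (SimpleGraph.is3Clique_triple_iff.2 ⟨ha, hb, hab⟩)
  set A : Finset V := (nb G v).filter (fun u => ∀ s ∈ S, ¬ G.Adj u s) with hA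
  have hAmem : ∀ u, u ∈ A ↔ G.Adj v u ∧ ∀ s ∈ S, ¬ G.Adj u s := by
    intro u
    rw [hA, mem_filter, mem_nb]
  have hvA : v ∉ A := by
    intro h
    exact (G.irrefl ((hAmem v).1 h).1)
  have hSA : ∀ B, B ⊆ A → Disjoint S B := by
    intro B hB
    rw [Finset.disjoint_left]
    intro a ha hb
    exact (hSd a ha).2 ((hAmem a).1 (hB hb)).1
  have hfib : (IS G).filter (fun W => W \ (insert v (nb G v)) = S) =
      insert (insert v S) (A.powerset.image (fun B => S ∪ B)) := by
    ext W
    simp only [mem_filter, mem_IS, mem_insert, mem_image, mem_powerset]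
    constructor
    · rintro ⟨hWi, hWs⟩
      by_cases hv : v ∈ W
      · left
        ext a
        rw [mem_insert]
        constructor
        · intro ha
          by_cases hav : a = v
          · exact Or.inl hav
          · right
            rw [← hWs, mem_sdiff]
            refine ⟨ha, ?_⟩
            simp only [mem_insert, mem_nb, not_or]
            exact ⟨hav, hWi v hv a ha⟩
        · rintro (rfl | ha)
          · exact hv
          · rw [← hWs] at ha
            exact (mem_sdiff.1 ha).1
      · right
        refine ⟨W ∩ nb G v, ?_, ?_⟩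
        · intro a ha
          rw [mem_inter, mem_nb] at ha
          rw [hAmem]
          refine ⟨ha.2, ?_⟩
          intro s hs
          rw [← hWs] at hs
          exact hWi a ha.1 s (mem_sdiff.1 hs).1
        · ext a
          rw [mem_union, mem_inter, ← hWs, mem_sdiff, mem_insert]
          constructor
          · rintro (h | h)
            · exact h.1
            · exact h.1
          · intro h
            by_cases han : a ∈ nb G v
            · exact Or.inr ⟨h, han⟩
            · left
              refine ⟨h, ?_⟩
              rintro (h1 | h1)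
              · exact hv (h1 ▸ h)
              · exact han h1
    · rintro (rfl | ⟨B, hB, rfl⟩)
      · constructor
        · intro a ha b hb hab
          rw [mem_insert] at ha hb
          rcases ha with rfl | ha
          · rcases hb with rfl | hb
            · exact G.irrefl hab
            · exact (hSd b hb).2 hab
          · rcases hb with rfl | hb
            · exact (hSd a ha).2 hab.symm
            · exact hSi a ha b hb hab
        · ext a
          simp only [mem_sdiff, mem_insert, mem_nb, not_or]
          constructor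
          · rintro ⟨h1 | h1, h2, h3⟩
            · exact absurd h1 h2
            · exact h1
          · intro h
            exact ⟨Or.inr h, hSd a h⟩
      · constructor
        · intro a ha b hb hab
          rw [mem_union] at ha hb
          rcases ha with ha | ha
          · rcases hb with hb | hb
            · exact hSi a ha b hb hab
            · exact ((hAmem b).1 (hB hb)).2 a ha hab.symm
          · rcases hb with hb | hb
            · exact ((hAmem a).1 (hB ha)).2 b hb hab
            · exact hnbi a b ((hAmem a).1 (hB ha)).1 ((hAmem b).1 (hB hb)).1 hab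
        · ext a
          simp only [mem_sdiff, mem_insert, mem_nb, not_or, mem_union]
          constructor
          · rintro ⟨h1 | h1, h2, h3⟩
            · exact h1
            · exact absurd ((hAmem a).1 (hB h1)).1 h3
          · intro h
            exact ⟨Or.inl h, hSd a h⟩
  have hnotin : insert v S ∉ A.powerset.image (fun B => S ∪ B) := by
    rw [mem_image]
    rintro ⟨B, hB, hBe⟩
    rw [mem_powerset] at hB
    have : v ∈ S ∪ B := by rw [hBe]; exact mem_insert_self _ _
    rw [mem_union] at this
    rcases this with h | h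
    · exact (hSd v h).1 rfl
    · exact hvA (hB h)
  have hinj : Set.InjOn (fun B => S ∪ B) (A.powerset : Set (Finset V)) := by
    intro B hB B' hB' h
    simp only [coe_powerset, Set.mem_preimage, Set.mem_powerset_iff, coe_subset] at hB hB'
    have h1 := hSA B hB
    have h2 := hSA B' hB'
    simp only at h
    calc B = (S ∪ B) \ S := (Finset.union_sdiff_cancel_left h1).symm
      _ = (S ∪ B') \ S := by rw [h]
      _ = B' := Finset.union_sdiff_cancel_left h2
  rw [hfib, Finset.card_insert_of_notMem hnotin, Finset.sum_insert hnotin,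
    Finset.card_image_of_injOn hinj, Finset.sum_image hinj, card_powerset]
  have hX1 : X G D v (insert v S) = D := by
    unfold X
    have : insert v S ∩ nb G v = ∅ := by
      ext a
      simp only [mem_inter, mem_insert, mem_nb, notMem_empty, iff_false, not_and]
      rintro (rfl | h)
      · exact G.irrefl
      · exact (hSd a h).2
    rw [this]
    simp
  have hX2 : ∀ B ∈ A.powerset, X G D v (S ∪ B) = (B.card : ℝ) := by
    intro B hB
    rw [mem_powerset] at hB
    unfold X
    have h1 : (S ∪ B) ∩ nb G v = B := by
      ext a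
      simp only [mem_inter, mem_union, mem_nb]
      constructor
      · rintro ⟨h | h, h2⟩
        · exact absurd h2 (hSd a h).2
        · exact h
      · intro h
        exact ⟨Or.inr h, ((hAmem a).1 (hB h)).1⟩
    have h2 : v ∉ S ∪ B := by
      rw [mem_union]
      rintro (h | h)
      · exact (hSd v h).1 rfl
      · exact hvA (hB h)
    rw [h1, if_neg h2]
    simp
  rw [hX1, Finset.sum_congr rfl hX2, sum_powerset_card]
  have := hL A.card
  push_cast
  exact this

open Classical in
lemma exists_indep (G : SimpleGraph V) (hG : G.CliqueFree 3) (D L : ℝ)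
    (hdeg : ∀ v, ((nb G v).card : ℝ) ≤ D)
    (hL : ∀ x : ℕ, L * (2 ^ x + 1) ≤ D + x * 2 ^ x / 2) :
    ∃ W : Finset V, Ind G W ∧ (Fintype.card V : ℝ) * L ≤ 2 * D * W.card := by
  have hv : ∀ v : V, L * ((IS G).card : ℝ) ≤ ∑ W ∈ IS G, X G D v W := by
    intro v
    rw [← Finset.sum_fiberwise_of_maps_to (g := fun W => W \ (insert v (nb G v)))
      (t := univ) (fun _ _ => mem_univ _) (X G D v)]
    rw [Finset.card_eq_sum_card_fiberwise (f := fun W => W \ (insert v (nb G v)))
      (t := univ) (fun _ _ => mem_univ _)]
    push_cast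
    rw [Finset.mul_sum]
    exact Finset.sum_le_sum (fun S _ => fiber G hG v D L hL S)
  have hne : (IS G).Nonempty := ⟨∅, by rw [mem_IS]; intro a ha; simp at ha⟩
  have htot : ∑ W ∈ IS G, (Fintype.card V : ℝ) * L ≤ ∑ W ∈ IS G, ∑ v : V, X G D v W := by
    rw [Finset.sum_comm]
    rw [Finset.sum_const, nsmul_eq_mul]
    calc ((IS G).card : ℝ) * ((Fintype.card V : ℝ) * L)
        = ∑ v : V, L * ((IS G).card : ℝ) := by
          rw [Finset.sum_const, nsmul_eq_mul, card_univ]; ring
      _ ≤ _ := Finset.sum_le_sum (fun v _ => hv v)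
  obtain ⟨W, hW, hWle⟩ := Finset.exists_le_of_sum_le hne htot
  refine ⟨W, (mem_IS G W).1 hW, hWle.trans ?_⟩
  unfold X
  rw [Finset.sum_add_distrib, ← Finset.mul_sum]
  have h1 : ∑ v : V, (if v ∈ W then (1:ℝ) else 0) = W.card := by
    simp
  have h2 : ∑ v : V, ((W ∩ nb G v).card : ℝ) = ∑ w ∈ W, ((nb G w).card : ℝ) := by
    have e1 : ∀ v : V, ((W ∩ nb G v).card : ℝ) = ∑ w ∈ W, if G.Adj v w then (1:ℝ) else 0 := by
      intro v
      rw [Finset.sum_boole]
      congr 2
      ext a
      simp [mem_nb]
    have e2 : ∀ w : V, ((nb G w).card : ℝ) = ∑ v : V, if G.Adj v w then (1:ℝ) else 0 := by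
      intro w
      rw [Finset.sum_boole]
      congr 2
      ext a
      simp [mem_nb, G.adj_comm]
    rw [Finset.sum_congr rfl (fun v _ => e1 v), Finset.sum_comm]
    exact Finset.sum_congr rfl (fun w _ => (e2 w).symm)
  rw [h1, h2]
  have h3 : ∑ w ∈ W, ((nb G w).card : ℝ) ≤ W.card * D := by
    calc ∑ w ∈ W, ((nb G w).card : ℝ) ≤ ∑ w ∈ W, D := Finset.sum_le_sum (fun w _ => hdeg w)
      _ = W.card * D := by rw [Finset.sum_const, nsmul_eq_mul]
  nlinarith

end Avg

/-- Large triangle-free graphs have independent sets of size `≥ K √n`. -/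
lemma large_indep (K : ℝ) (hK : 1 ≤ K) :
    ∃ N0 : ℕ, ∀ (V : Type) [Fintype V] [DecidableEq V] (G : SimpleGraph V), G.CliqueFree 3 →
      N0 ≤ Fintype.card V → ∃ W : Finset V, Ind G W ∧ K * Real.sqrt (Fintype.card V) ≤ W.card := by
  set L : ℝ := 4 * K ^ 2 with hLdef
  obtain ⟨x0, hx0⟩ := exists_nat_ge (4 * L)
  obtain ⟨T, hT⟩ := exists_nat_ge (L * (2 ^ x0 + 1))
  refine ⟨T ^ 2 + 1, ?_⟩
  intro V _ _ G hG hn
  have hL0 : 0 < L := by positivity
  set n : ℕ := Fintype.card V with hn'
  have hnpos : (1 : ℝ) ≤ n := by
    have : 1 ≤ n := by omega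
    exact_mod_cast this
  have hsq : (T : ℝ) ≤ Real.sqrt n := by
    apply Real.le_sqrt_of_sq_le
    have : T ^ 2 ≤ n := by omega
    exact_mod_cast this
  have hs1 : (1 : ℝ) ≤ Real.sqrt n := by
    rw [Real.one_le_sqrt]; exact hnpos
  by_cases hdeg : ∃ v, K * Real.sqrt n ≤ ((nb G v).card : ℝ)
  · obtain ⟨v, hv⟩ := hdeg
    refine ⟨nb G v, ?_, hv⟩
    intro a ha b hb hab
    rw [mem_nb] at ha hb
    exact hG {v, a, b} (SimpleGraph.is3Clique_triple_iff.2 ⟨ha, hb, hab⟩)
  · push Not at hdeg
    have hD0 : 0 ≤ K * Real.sqrt n := by positivity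
    obtain ⟨W, hW, hWle⟩ := exists_indep G hG (K * Real.sqrt n) L
      (fun v => (hdeg v).le) (by
        intro x
        by_cases hx : x ≤ x0
        · have h1 : (2:ℝ) ^ x ≤ 2 ^ x0 := pow_le_pow_right₀ (by norm_num) hx
          have h2 : L * (2 ^ x + 1) ≤ L * (2 ^ x0 + 1) := by
            apply mul_le_mul_of_nonneg_left _ hL0.le
            linarith
          have h3 : (T : ℝ) ≤ K * Real.sqrt n := by nlinarith
          have h4 : (0:ℝ) ≤ x * 2 ^ x / 2 := by positivity
          linarith
        · push Not at hx
          have hx' : (x0 : ℝ) ≤ x := by exact_mod_cast hx.le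
          have h1 : (1:ℝ) ≤ 2 ^ x := one_le_pow₀ (by norm_num)
          have h2 : 4 * L ≤ x := hx0.trans hx'
          nlinarith)
    refine ⟨W, hW, ?_⟩
    have hs : Real.sqrt n * Real.sqrt n = n := Real.mul_self_sqrt (by positivity)
    have h5 : (n : ℝ) * (4 * K ^ 2) ≤ 2 * (K * Real.sqrt n) * W.card := hWle
    have hsp : 0 < Real.sqrt n := by linarith
    have hKp : 0 < K := by linarith
    -- n = s^2
    have h6 : Real.sqrt n * (2 * K) * (2 * (K * Real.sqrt n)) ≤ Real.sqrt n * (2 * K) * W.card := by
      nlinarith
    have h7 : 2 * (K * Real.sqrt n) ≤ W.card := le_of_mul_le_mul_left h6 (by positivity)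
    linarith

/-- Triangle-free graphs on `n` vertices have chromatic number at most `ε √n + C`. -/
lemma colour (ε : ℝ) (hε : 0 < ε) (hε1 : ε ≤ 1) :
    ∃ C : ℕ, ∀ (V : Type) [Fintype V] [DecidableEq V] (G : SimpleGraph V), G.CliqueFree 3 →
      ∀ s : Finset V, ∃ m : ℕ, (m : ℝ) ≤ ε * Real.sqrt s.card + C ∧
        ∃ f : V → ℕ, (∀ u ∈ s, f u < m) ∧ ∀ u ∈ s, ∀ v ∈ s, G.Adj u v → f u ≠ f v := by
  obtain ⟨N0, hN0⟩ := large_indep (2 / ε) (by rw [le_div_iff₀ hε]; linarith)
  refine ⟨N0 + 1, ?_⟩
  intro V _ _ G hG s
  induction hcard : s.card using Nat.strong_induction_on generalizing s with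
  | _ n ih =>
    by_cases hn : n ≤ N0
    · -- few vertices: colour injectively
      refine ⟨n, ?_, ?_⟩
      · have h1 : 0 ≤ ε * Real.sqrt n := by positivity
        have h2 : (n : ℝ) ≤ N0 := by exact_mod_cast hn
        push_cast
        linarith
      · have e : s ≃ Fin n := s.equivFinOfCardEq hcard
        refine ⟨fun v => if h : v ∈ s then (e ⟨v, h⟩ : ℕ) else 0, ?_, ?_⟩
        · intro u hu
          simp only [hu, dif_pos]
          exact (e ⟨u, hu⟩).2
        · intro u hu v hv huv
          simp only [hu, hv, dif_pos]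
          intro h
          have := e.injective (Fin.ext h)
          have : u = v := congrArg Subtype.val this
          subst this
          exact G.irrefl huv
    · push Not at hn
      have hfree : (G.induce (s : Set V)).CliqueFree 3 := by
        intro t ht
        have := ht.map (f := Function.Embedding.subtype _)
        exact hG _ (this.mono (SimpleGraph.map_comap_le _ _))
      obtain ⟨W, hWi, hWc⟩ := hN0 s (G.induce (s : Set V)) hfree (by simpa [hcard] using hn.le)
      have hcs : Fintype.card s = n := by simpa using hcard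
      rw [hcs] at hWc
      set W' : Finset V := W.map ⟨Subtype.val, Subtype.val_injective⟩ with hW'
      have hW's : W' ⊆ s := by
        intro a ha
        rw [hW', mem_map] at ha
        obtain ⟨b, _, rfl⟩ := ha
        exact b.2
      have hW'c : W'.card = W.card := card_map _
      have hnp : (0:ℝ) < n := by
        have : 0 < n := by omega
        exact_mod_cast this
      have hsp : 0 < Real.sqrt n := Real.sqrt_pos.2 hnp
      have hWpos : 0 < W.card := by
        by_contra h
        have h0 : W.card = 0 := by omega
        rw [h0] at hWc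
        have : 0 < 2 / ε * Real.sqrt n := by positivity
        simp at hWc
        linarith
      have hWle : W.card ≤ n := by rw [← hW'c, ← hcard]; exact card_le_card hW's
      have hsd : (s \ W').card = n - W.card := by
        rw [card_sdiff_of_subset hW's, hW'c, hcard]
      obtain ⟨m, hm, f, hf1, hf2⟩ := ih (n - W.card) (by omega) (s \ W') hsd
      refine ⟨m + 1, ?_, fun v => if v ∈ W' then m else f v, ?_, ?_⟩
      · have hkey : Real.sqrt ((n - W.card : ℕ) : ℝ) ≤ Real.sqrt n - 1 / ε := by
          apply Real.sqrt_le_iff.2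
          have hWR : (W.card : ℝ) ≤ n := by exact_mod_cast hWle
          have hss : Real.sqrt n * Real.sqrt n = n := Real.mul_self_sqrt hnp.le
          have h1 : 1 / ε ≤ Real.sqrt n := by
            have : 2 / ε * Real.sqrt n ≤ Real.sqrt n * Real.sqrt n := by
              rw [hss]; exact hWc.trans hWR
            have h2 : 2 / ε ≤ Real.sqrt n := le_of_mul_le_mul_right this hsp
            have h3 : 1 / ε ≤ 2 / ε := by
              apply div_le_div_of_nonneg_right _ hε.le
              norm_num
            linarith
          refine ⟨by linarith, ?_⟩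
          push_cast [Nat.cast_sub hWle]
          have h4 : (0:ℝ) ≤ (1 / ε) ^ 2 := by positivity
          have h5 : 2 / ε * Real.sqrt n = 2 * (1 / ε) * Real.sqrt n := by ring
          nlinarith
        push_cast
        have : ε * Real.sqrt ((n - W.card : ℕ) : ℝ) ≤ ε * Real.sqrt n - 1 := by
          calc ε * Real.sqrt ((n - W.card : ℕ) : ℝ) ≤ ε * (Real.sqrt n - 1 / ε) :=
                mul_le_mul_of_nonneg_left hkey hε.le
            _ = ε * Real.sqrt n - 1 := by field_simp
        push_cast at hm
        linarith
      · intro u hu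
        by_cases huW : u ∈ W'
        · simp [huW]
        · simp only [huW, if_false]
          have := hf1 u (mem_sdiff.2 ⟨hu, huW⟩)
          omega
      · intro u hu v hv huv
        by_cases huW : u ∈ W'
        · by_cases hvW : v ∈ W'
          · exfalso
            rw [hW', mem_map] at huW hvW
            obtain ⟨a, ha, rfl⟩ := huW
            obtain ⟨b, hb, rfl⟩ := hvW
            exact hWi a ha b hb huv
          · simp only [huW, hvW, if_true, if_false]
            have := hf1 v (mem_sdiff.2 ⟨hv, hvW⟩)
            omega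
        · by_cases hvW : v ∈ W'
          · simp only [huW, hvW, if_true, if_false]
            have := hf1 u (mem_sdiff.2 ⟨hu, huW⟩)
            omega
          · simp only [huW, hvW, if_false]
            exact hf2 u (mem_sdiff.2 ⟨hu, huW⟩) v (mem_sdiff.2 ⟨hv, hvW⟩) huv

end Pool.Agent.H50.TriFree
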