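import Mathlib
import Pool.Agent.H50.TriFree

set_option autoImplicit false

namespace Pool.Agent.H50.PsiMatch

open Finset Pool.Agent.H50.TriFree

variable {V : Type} [Fintype V] [DecidableEq V]

/-- Either `m` disjoint edges, or a vertex cover with fewer than `2 m` vertices. -/
lemma matching_or_cover (G : SimpleGraph V) (m : ℕ) :
    (∃ a b : Fin m → V, Function.Injective a ∧ Function.Injective b ∧ (∀ i j, a i ≠ b j) ∧
      ∀ i, G.Adj (a i) (b i)) ∨
    ∃ C : Finset V, C.card < 2 * m ∧ ∀ u v, G.Adj u v → u ∈ C ∨ v ∈ C := by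
  induction m with
  | zero =>
    left
    exact ⟨Fin.elim0, Fin.elim0, fun i => i.elim0, fun i => i.elim0, fun i => i.elim0,
      fun i => i.elim0⟩
  | succ m ih =>
    rcases ih with ⟨a, b, ha, hb, hab, hadj⟩ | ⟨C, hC, hcov⟩
    · by_cases hcov : ∀ u v, G.Adj u v → u ∈ (univ.image a ∪ univ.image b) ∨
        v ∈ (univ.image a ∪ univ.image b)
      · right
        refine ⟨univ.image a ∪ univ.image b, ?_, hcov⟩
        have h1 : (univ.image a).card ≤ m := by
          simpa using (card_image_le (s := (univ : Finset (Fin m))) (f := a))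
        have h2 : (univ.image b).card ≤ m := by
          simpa using (card_image_le (s := (univ : Finset (Fin m))) (f := b))
        have := card_union_le (univ.image a) (univ.image b)
        omega
      · left
        push Not at hcov
        obtain ⟨u, v, huv, hu, hv⟩ := hcov
        simp only [mem_union, mem_image, mem_univ, true_and, not_or, not_exists] at hu hv
        refine ⟨Fin.cons u a, Fin.cons v b, ?_, ?_, ?_, ?_⟩
        · rw [Fin.cons_injective_iff]
          refine ⟨?_, ha⟩
          rintro ⟨i, hi⟩
          exact hu.1 i hi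
        · rw [Fin.cons_injective_iff]
          refine ⟨?_, hb⟩
          rintro ⟨i, hi⟩
          exact hv.2 i hi
        · intro i j
          refine Fin.cases ?_ (fun i => ?_) i
          · refine Fin.cases ?_ (fun j => ?_) j
            · simpa using huv.ne
            · simpa using fun h => hu.2 j h.symm
          · refine Fin.cases ?_ (fun j => ?_) j
            · simpa using hv.1 i
            · simpa using hab i j
        · intro i
          refine Fin.cases ?_ (fun i => ?_) i
          · simpa using huv
          · simpa using hadj i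
    · right
      exact ⟨C, by omega, hcov⟩

/-- From `k * k` disjoint edges one gets a complete `k`-colouring. -/
lemma complete_of_matching (G : SimpleGraph V) (k : ℕ) (hk : 0 < k) (a b : Fin (k * k) → V)
    (ha : Function.Injective a) (hb : Function.Injective b) (hab : ∀ i j, a i ≠ b j)
    (hadj : ∀ i, G.Adj (a i) (b i)) :
    ∃ f : V → Fin k, Function.Surjective f ∧
      ∀ i j : Fin k, i ≠ j → ∃ u v, G.Adj u v ∧ f u = i ∧ f v = j := by
  classical
  let e : Fin k × Fin k ≃ Fin (k * k) := finProdFinEquiv
  let f : V → Fin k := fun x =>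
    if h : ∃ p, a p = x then (e.symm h.choose).1
    else if h : ∃ p, b p = x then (e.symm h.choose).2 else ⟨0, hk⟩
  have hfa : ∀ i j, f (a (e (i, j))) = i := by
    intro i j
    have h : ∃ p, a p = a (e (i, j)) := ⟨_, rfl⟩
    have h2 : h.choose = e (i, j) := ha h.choose_spec
    simp only [f, dif_pos h, h2, Equiv.symm_apply_apply]
  have hfb : ∀ i j, f (b (e (i, j))) = j := by
    intro i j
    have h0 : ¬ ∃ p, a p = b (e (i, j)) := by
      rintro ⟨p, hp⟩
      exact hab _ _ hp
    have h : ∃ p, b p = b (e (i, j)) := ⟨_, rfl⟩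
    have h2 : h.choose = e (i, j) := hb h.choose_spec
    simp only [f, dif_neg h0, dif_pos h, h2, Equiv.symm_apply_apply]
  refine ⟨f, fun i => ⟨a (e (i, i)), hfa i i⟩, ?_⟩
  intro i j _
  exact ⟨a (e (i, j)), b (e (i, j)), hadj _, hfa i j, hfb i j⟩

/-- A triangle-free graph with chromatic number `k` large has a complete `(k+1)`-colouring. -/
lemma main : ∃ k : ℕ, 2 ≤ k ∧ ∀ (n : ℕ) (G : SimpleGraph (Fin n)), G.CliqueFree 3 →
    G.chromaticNumber = (k : ℕ∞) →
    ∃ f : Fin n → Fin (k + 1), Function.Surjective f ∧
      ∀ i j : Fin (k + 1), i ≠ j → ∃ u v, G.Adj u v ∧ f u = i ∧ f v = j := by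
  obtain ⟨C0, hC0⟩ := colour (1 / 4) (by norm_num) (by norm_num)
  refine ⟨4 * C0 + 10, by omega, ?_⟩
  set k : ℕ := 4 * C0 + 10 with hk
  intro n G hG hchi
  rcases matching_or_cover G ((k + 1) * (k + 1)) with ⟨a, b, ha, hb, hab, hadj⟩ | ⟨C, hC, hcov⟩
  · exact complete_of_matching G (k + 1) (by omega) a b ha hb hab hadj
  · exfalso
    obtain ⟨m, hm, f, hf1, hf2⟩ := hC0 (Fin n) G hG C
    have hcol : G.Colorable (m + 1) := by
      refine ⟨SimpleGraph.Coloring.mk (fun v => if h : v ∈ C then
        (⟨f v, by have := hf1 v h; omega⟩ : Fin (m + 1)) else Fin.last m) ?_⟩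
      intro u v huv
      by_cases hu : u ∈ C
      · by_cases hv : v ∈ C
        · simp only [hu, hv, dif_pos]
          intro h
          exact hf2 u hu v hv huv (congrArg Fin.val h)
        · simp only [hu, hv, dif_pos, dif_neg, not_false_eq_true]
          intro h
          have h2 := congrArg Fin.val h
          simp only [Fin.val_last] at h2
          have := hf1 u hu
          omega
      · by_cases hv : v ∈ C
        · simp only [hu, hv, dif_pos, dif_neg, not_false_eq_true]
          intro h
          have h2 := congrArg Fin.val h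
          simp only [Fin.val_last] at h2
          have := hf1 v hv
          omega
        · exact absurd (hcov u v huv) (by tauto)
    have h1 : (k : ℕ∞) ≤ ((m + 1 : ℕ) : ℕ∞) := by
      rw [← hchi]
      exact hcol.chromaticNumber_le
    have h2 : k ≤ m + 1 := by exact_mod_cast h1
    have h3 : Real.sqrt C.card ≤ 3 / 2 * (k + 1) := by
      apply Real.sqrt_le_iff.2
      refine ⟨by positivity, ?_⟩
      have : (C.card : ℝ) < 2 * ((k + 1) * (k + 1)) := by exact_mod_cast hC
      nlinarith
    have h4 : (k : ℝ) ≤ m + 1 := by exact_mod_cast h2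
    have h5 : (k : ℝ) = 4 * C0 + 10 := by rw [hk]; push_cast; ring
    have h6 : (0:ℝ) ≤ C0 := by positivity
    nlinarith

end Pool.Agent.H50.PsiMatch
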